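import Pool.Agent.H964.LF.Stm

/-!
# LF-GPA: a bad box forces a pattern of steep edges
-/

set_option autoImplicit false

namespace Pool.Agent.H772.LF

open Pool.Agent.H964.LF

variable {d : ℕ}

/-! ### Paths -/

theorem l1_nonneg (w : Fin d → ℤ) : 0 ≤ l1 w := Finset.sum_nonneg fun i _ => abs_nonneg (w i)

theorem l1_zero {w : Fin d → ℤ} (h : l1 w = 0) : w = 0 := by
  funext i
  have h1 := (Finset.sum_eq_zero_iff_of_nonneg fun i _ => abs_nonneg (w i)).1 h i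
    (Finset.mem_univ i)
  exact abs_eq_zero.1 h1

theorem l1_step {w w' : Fin d → ℤ} (j : Fin d) (h : ∀ i, i ≠ j → w' i = w i)
    (hj : |w' j| = |w j| - 1) : l1 w' = l1 w - 1 := by
  unfold l1
  rw [← Finset.add_sum_erase Finset.univ (fun i => |w' i|) (Finset.mem_univ j),
    ← Finset.add_sum_erase Finset.univ (fun i => |w i|) (Finset.mem_univ j)]
  have h1 : ∑ i ∈ Finset.univ.erase j, |w' i| = ∑ i ∈ Finset.univ.erase j, |w i| :=
    Finset.sum_congr rfl fun i hi => by rw [h i (Finset.ne_of_mem_erase hi)]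
  rw [h1, hj]
  ring

/-- A step in the direction of `z'`. -/
theorem exists_step {M : ℕ} {z z' : Fin d → ℤ} (hz : bx M z) (hz' : bx M z') (h : z ≠ z') :
    ∃ (e : (Fin d → ℤ) × Fin d) (z1 : Fin d → ℤ), bx M z1 ∧ l1 (z1 - z') = l1 (z - z') - 1 ∧
      ((e.1 = z ∧ e.1 + Pi.single e.2 1 = z1) ∨ (e.1 = z1 ∧ e.1 + Pi.single e.2 1 = z)) := by
  obtain ⟨j, hj⟩ := Function.ne_iff.1 h
  have hzj := hz j
  have hzj' := hz' j
  rw [abs_le] at hzj hzj'
  rcases lt_or_gt_of_ne hj with hlt | hgt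
  · refine ⟨(z, j), z + Pi.single j 1, ?_, ?_, Or.inl ⟨rfl, rfl⟩⟩
    · intro i
      by_cases hi : i = j
      · subst hi
        rw [Pi.add_apply, Pi.single_eq_same, abs_le]
        constructor <;> omega
      · rw [Pi.add_apply, Pi.single_eq_of_ne hi, add_zero]
        exact hz i
    · refine l1_step j ?_ ?_
      · intro i hi
        rw [Pi.sub_apply, Pi.add_apply, Pi.single_eq_of_ne hi, add_zero, Pi.sub_apply]
      · rw [Pi.sub_apply, Pi.add_apply, Pi.single_eq_same, Pi.sub_apply,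
          abs_of_nonpos (by omega), abs_of_neg (by omega)]
        ring
  · refine ⟨(z - Pi.single j 1, j), z - Pi.single j 1, ?_, ?_, Or.inr ⟨rfl, sub_add_cancel _ _⟩⟩
    · intro i
      by_cases hi : i = j
      · subst hi
        rw [Pi.sub_apply, Pi.single_eq_same, abs_le]
        constructor <;> omega
      · rw [Pi.sub_apply, Pi.single_eq_of_ne hi, sub_zero]
        exact hz i
    · refine l1_step j ?_ ?_
      · intro i hi
        rw [Pi.sub_apply, Pi.sub_apply, Pi.single_eq_of_ne hi, sub_zero, Pi.sub_apply]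
      · rw [Pi.sub_apply, Pi.sub_apply, Pi.single_eq_same, Pi.sub_apply,
          abs_of_nonneg (by omega), abs_of_pos (by omega)]
        ring

/-- The edges of a path in the box. -/
theorem exists_path {M : ℕ} {z' : Fin d → ℤ} (hz' : bx M z') : ∀ (r : ℕ) (z : Fin d → ℤ),
    bx M z → l1 (z - z') = r → ∃ E : Finset ((Fin d → ℤ) × Fin d), E.card = r ∧
      (∀ e ∈ E, bx M e.1 ∧ bx M (e.1 + Pi.single e.2 1) ∧ l1 (e.1 - z') ≤ r ∧
        l1 (e.1 + Pi.single e.2 1 - z') ≤ r) ∧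
      ∀ f : (Fin d → ℤ) → ℝ, |f z - f z'| ≤ ∑ e ∈ E, |f (e.1 + Pi.single e.2 1) - f e.1| := by
  intro r
  induction r with
  | zero =>
    intro z hz h
    have h1 : z = z' := sub_eq_zero.1 (l1_zero h)
    refine ⟨∅, rfl, fun e he => absurd he (Finset.notMem_empty e), fun f => ?_⟩
    rw [h1, sub_self, abs_zero, Finset.sum_empty]
  | succ r ih =>
    intro z hz h
    have hne : z ≠ z' := by
      rintro rfl
      rw [sub_self] at h
      have h1 : l1 (0 : Fin d → ℤ) = 0 := by simp [l1]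
      rw [h1] at h
      exact absurd h (by exact_mod_cast (Nat.succ_ne_zero r).symm)
    obtain ⟨e, z1, hz1, hl, he⟩ := exists_step hz hz' hne
    have hl1 : l1 (z1 - z') = r := by
      rw [hl, h]
      push_cast
      ring
    obtain ⟨E, hE1, hE2, hE3⟩ := ih z1 hz1 hl1
    have heE : e ∉ E := by
      intro heE
      obtain ⟨-, -, h3, h4⟩ := hE2 e heE
      rcases he with ⟨h5, h6⟩ | ⟨h5, h6⟩
      · rw [h5, h] at h3
        push_cast at h3
        omega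
      · rw [h6, h] at h4
        push_cast at h4
        omega
    refine ⟨insert e E, ?_, ?_, ?_⟩
    · rw [Finset.card_insert_of_notMem heE, hE1]
    · intro e' he'
      rcases Finset.mem_insert.1 he' with rfl | he'
      · rcases he with ⟨h5, h6⟩ | ⟨h5, h6⟩
        · rw [h6, h5]
          refine ⟨hz, hz1, h.le, ?_⟩
          rw [hl1]
          push_cast
          omega
        · rw [h6, h5]
          refine ⟨hz1, hz, ?_, h.le⟩
          rw [hl1]
          push_cast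
          omega
      · obtain ⟨h1, h2, h3, h4⟩ := hE2 e' he'
        refine ⟨h1, h2, h3.trans ?_, h4.trans ?_⟩ <;> · push_cast; omega
    · intro f
      rw [Finset.sum_insert heE]
      have h7 : |f z - f z1| = |f (e.1 + Pi.single e.2 1) - f e.1| := by
        rcases he with ⟨h5, h6⟩ | ⟨h5, h6⟩
        · rw [h6, h5, abs_sub_comm]
        · rw [h6, h5]
      calc |f z - f z'| = |(f z - f z1) + (f z1 - f z')| := by rw [sub_add_sub_cancel]
        _ ≤ |f z - f z1| + |f z1 - f z'| := abs_add_le _ _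
        _ ≤ _ := by
          rw [h7]
          exact add_le_add le_rfl (hE3 f)

/-! ### Sums -/

theorem sum_image_le {α β : Type} [DecidableEq β] (s : Finset α) (φ : α → β) (g : β → ℝ)
    (hg : ∀ x ∈ s, 0 ≤ g (φ x)) : ∑ q ∈ s.image φ, g q ≤ ∑ x ∈ s, g (φ x) := by
  rw [← Finset.sum_fiberwise_of_maps_to (g := φ) (t := s.image φ)
    (fun x hx => Finset.mem_image_of_mem φ hx) (fun x => g (φ x))]
  refine Finset.sum_le_sum fun q hq => ?_
  obtain ⟨x, hx, rfl⟩ := Finset.mem_image.1 hq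
  exact Finset.single_le_sum (f := fun y => g (φ y))
    (fun y hy => hg y (Finset.mem_filter.1 hy).1) (Finset.mem_filter.2 ⟨hx, rfl⟩)

/-- The box. -/
noncomputable def Bx (d : ℕ) (M : ℕ) : Finset (Fin d → ℤ) :=
  Fintype.piFinset fun _ => Finset.Icc (-(M : ℤ)) M

theorem mem_Bx {M : ℕ} {z : Fin d → ℤ} : z ∈ Bx d M ↔ bx M z := by
  unfold Bx bx
  rw [Fintype.mem_piFinset]
  refine forall_congr' fun j => ?_
  rw [Finset.mem_Icc, abs_le]

theorem card_Bx (d M : ℕ) : (Bx d M).card = (2 * M + 1) ^ d := by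
  unfold Bx
  rw [Fintype.card_piFinset, Finset.prod_const, Int.card_Icc, Finset.card_univ,
    Fintype.card_fin]
  congr 1
  omega

/-! ### The function on `ℤ^d` -/

theorem zt_add {n : ℕ} (z : Fin d → ℤ) (i : Fin d) :
    zt n (z + Pi.single i 1) = zt n z + Pi.single i 1 := by
  funext j
  by_cases hj : j = i
  · subst hj
    change (((z + Pi.single j 1 : Fin d → ℤ) j : ℤ) : ZMod (2 * n + 2)) =
      ((z j : ℤ) : ZMod (2 * n + 2)) + (Pi.single j 1 : Tor d n) j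
    rw [Pi.add_apply, Pi.single_eq_same, Pi.single_eq_same]
    push_cast
    rfl
  · change (((z + Pi.single i 1 : Fin d → ℤ) j : ℤ) : ZMod (2 * n + 2)) =
      ((z j : ℤ) : ZMod (2 * n + 2)) + (Pi.single i 1 : Tor d n) j
    rw [Pi.add_apply, Pi.single_eq_of_ne hj, Pi.single_eq_of_ne hj, add_zero, add_zero]

/-- Steep edges: one of them. -/
theorem one_steep {α : Type} {E : Finset α} {g : α → ℝ} {δ : ℝ}
    (h : (1 - δ) * (E.card : ℝ) < ∑ e ∈ E, g e) : ∃ e ∈ E, 1 - δ ≤ g e := by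
  by_contra hcon
  push Not at hcon
  have h1 : ∑ e ∈ E, g e ≤ ∑ _e ∈ E, (1 - δ) := Finset.sum_le_sum fun e he => (hcon e he).le
  rw [Finset.sum_const, nsmul_eq_mul] at h1
  linarith

/-- Steep edges: more than half of them. -/
theorem half_steep {α : Type} {E : Finset α} {g : α → ℝ} (hg : ∀ e ∈ E, g e ≤ 1) {δ : ℝ}
    (hδ : 0 < δ) (h : (1 - δ) * (E.card : ℝ) < ∑ e ∈ E, g e) :
    ∃ A ⊆ E, E.card ≤ 2 * A.card ∧ ∀ e ∈ A, 1 - 2 * δ ≤ g e := by
  classical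
  refine ⟨E.filter fun e => 1 - 2 * δ ≤ g e, Finset.filter_subset _ _, ?_,
    fun e he => (Finset.mem_filter.1 he).2⟩
  have h1 := Finset.sum_filter_add_sum_filter_not E (fun e => 1 - 2 * δ ≤ g e) g
  have h2 := Finset.card_filter_add_card_filter_not (s := E) (fun e => 1 - 2 * δ ≤ g e)
  have h3 : ∑ e ∈ E.filter (fun e => 1 - 2 * δ ≤ g e), g e ≤
      ((E.filter fun e => 1 - 2 * δ ≤ g e).card : ℝ) := by
    calc ∑ e ∈ E.filter (fun e => 1 - 2 * δ ≤ g e), g e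
        ≤ ∑ _e ∈ E.filter (fun e => 1 - 2 * δ ≤ g e), (1 : ℝ) :=
          Finset.sum_le_sum fun e he => hg e (Finset.mem_filter.1 he).1
      _ = _ := by rw [Finset.sum_const, nsmul_eq_mul, mul_one]
  have h4 : ∑ e ∈ E.filter (fun e => ¬ 1 - 2 * δ ≤ g e), g e ≤
      ((E.filter fun e => ¬ 1 - 2 * δ ≤ g e).card : ℝ) * (1 - 2 * δ) := by
    calc ∑ e ∈ E.filter (fun e => ¬ 1 - 2 * δ ≤ g e), g e
        ≤ ∑ _e ∈ E.filter (fun e => ¬ 1 - 2 * δ ≤ g e), (1 - 2 * δ) :=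
          Finset.sum_le_sum fun e he => (not_le.1 (Finset.mem_filter.1 he).2).le
      _ = _ := by rw [Finset.sum_const, nsmul_eq_mul]
  have h5 : ((E.filter fun e => 1 - 2 * δ ≤ g e).card : ℝ) +
      ((E.filter fun e => ¬ 1 - 2 * δ ≤ g e).card : ℝ) = (E.card : ℝ) := by exact_mod_cast h2
  have h6 : (E.card : ℝ) < 2 * ((E.filter fun e => 1 - 2 * δ ≤ g e).card : ℝ) := by
    by_contra hcon
    push Not at hcon
    have h7 : ∑ e ∈ E, g e ≤ ((E.filter fun e => 1 - 2 * δ ≤ g e).card : ℝ) +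
        ((E.filter fun e => ¬ 1 - 2 * δ ≤ g e).card : ℝ) * (1 - 2 * δ) := by
      rw [← h1]
      exact add_le_add h3 h4
    nlinarith
  exact_mod_cast h6.le

/-! ### The constants -/

theorem exists_K0 (d D : ℕ) {ε : ℝ} (hε : 0 < ε) :
    ∃ K0 : ℕ, 4 ∣ K0 ∧ 16 ≤ K0 ∧ 8 * D ≤ K0 ∧
      ((2 * (40 * K0 * D + 2) + 1 : ℕ) : ℝ) ^ (2 * d) * (1 / 4) ^ K0 ≤ ε := by
  have hC : (0 : ℝ) < ((80 * D + 5 : ℕ) : ℝ) ^ (2 * d) := by positivity
  have h1 := tendsto_pow_const_div_const_pow_of_one_lt (2 * d) (r := (4 : ℝ)) (by norm_num)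
  have h2 := h1.eventually_lt_const (show 0 < ε / ((80 * D + 5 : ℕ) : ℝ) ^ (2 * d) from
    div_pos hε hC)
  obtain ⟨n0, hn0⟩ := Filter.eventually_atTop.1 h2
  obtain ⟨K0, hK0⟩ : ∃ K0 : ℕ, K0 = 4 * (n0 + 2 * D + 4) := ⟨_, rfl⟩
  refine ⟨K0, ⟨_, hK0⟩, by omega, by omega, ?_⟩
  have h3 := hn0 K0 (by omega)
  have h4 : 2 * (40 * K0 * D + 2) + 1 ≤ (80 * D + 5) * K0 := by
    have h5 : 1 ≤ K0 := by omega
    nlinarith
  calc ((2 * (40 * K0 * D + 2) + 1 : ℕ) : ℝ) ^ (2 * d) * (1 / 4) ^ K0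
      ≤ (((80 * D + 5) * K0 : ℕ) : ℝ) ^ (2 * d) * (1 / 4) ^ K0 := by
        refine mul_le_mul_of_nonneg_right (pow_le_pow_left₀ (Nat.cast_nonneg _) ?_ _)
          (by positivity)
        exact_mod_cast h4
    _ = ((80 * D + 5 : ℕ) : ℝ) ^ (2 * d) * ((K0 : ℝ) ^ (2 * d) / 4 ^ K0) := by
        rw [Nat.cast_mul, mul_pow, one_div, inv_pow]
        ring
    _ ≤ ((80 * D + 5 : ℕ) : ℝ) ^ (2 * d) * (ε / ((80 * D + 5 : ℕ) : ℝ) ^ (2 * d)) :=
        mul_le_mul_of_nonneg_left h3.le hC.le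
    _ = ε := mul_div_cancel₀ _ hC.ne'

theorem exists_delta {d : ℕ} (hd : 1 ≤ d) {D ε : ℝ} (hD : 0 < D) (hε : 0 < ε) (m : ℕ) :
    ∃ δ : ℝ, 0 < δ ∧ δ ≤ D ∧
      (m : ℝ) * (128 * (d : ℝ) ^ 2 * δ) ^ ((1 : ℝ) / (4 * d)) ≤ ε := by
  have hd0 : (0 : ℝ) < d := by exact_mod_cast hd
  have hc : (0 : ℝ) < 128 * (d : ℝ) ^ 2 := by positivity
  have hm : (0 : ℝ) < (m : ℝ) + 1 := by positivity
  have hb : 0 < ε / ((m : ℝ) + 1) := div_pos hε hm
  have hbp : 0 < (ε / ((m : ℝ) + 1)) ^ (4 * (d : ℝ)) := Real.rpow_pos_of_pos hb _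
  refine ⟨min D ((ε / ((m : ℝ) + 1)) ^ (4 * (d : ℝ)) / (128 * (d : ℝ) ^ 2)),
    lt_min hD (div_pos hbp hc), min_le_left _ _, ?_⟩
  have h1 : 128 * (d : ℝ) ^ 2 *
      min D ((ε / ((m : ℝ) + 1)) ^ (4 * (d : ℝ)) / (128 * (d : ℝ) ^ 2)) ≤
      (ε / ((m : ℝ) + 1)) ^ (4 * (d : ℝ)) := by
    calc _ ≤ 128 * (d : ℝ) ^ 2 * ((ε / ((m : ℝ) + 1)) ^ (4 * (d : ℝ)) / (128 * (d : ℝ) ^ 2)) :=
          mul_le_mul_of_nonneg_left (min_le_right _ _) hc.le
      _ = _ := mul_div_cancel₀ _ hc.ne'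
  have h0 : 0 ≤ 128 * (d : ℝ) ^ 2 *
      min D ((ε / ((m : ℝ) + 1)) ^ (4 * (d : ℝ)) / (128 * (d : ℝ) ^ 2)) :=
    mul_nonneg hc.le (le_min hD.le (div_pos hbp hc).le)
  have h2 : (128 * (d : ℝ) ^ 2 *
      min D ((ε / ((m : ℝ) + 1)) ^ (4 * (d : ℝ)) / (128 * (d : ℝ) ^ 2))) ^
        ((1 : ℝ) / (4 * d)) ≤ ε / ((m : ℝ) + 1) := by
    calc _ ≤ ((ε / ((m : ℝ) + 1)) ^ (4 * (d : ℝ))) ^ ((1 : ℝ) / (4 * d)) :=
          Real.rpow_le_rpow h0 h1 (by positivity)
      _ = ε / ((m : ℝ) + 1) := by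
          rw [← Real.rpow_mul hb.le, mul_one_div_cancel (by positivity), Real.rpow_one]
  calc _ ≤ (m : ℝ) * (ε / ((m : ℝ) + 1)) := mul_le_mul_of_nonneg_left h2 (Nat.cast_nonneg _)
    _ ≤ ((m : ℝ) + 1) * (ε / ((m : ℝ) + 1)) :=
        mul_le_mul_of_nonneg_right (by linarith) hb.le
    _ = ε := mul_div_cancel₀ _ hm.ne'

/-- The weights of the patterns of the second kind. -/
theorem weight2 {d : ℕ} (hd : 1 ≤ d) {D : ℕ} (hD : D = 256 * d ^ 2 * 8 ^ (8 * d)) (a : ℕ) :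
    (128 * (d : ℝ) ^ 2 * (2 / (D : ℝ))) ^ ((a : ℝ) / (4 * d)) = (1 / 8) ^ (2 * a) := by
  have hd0 : (0 : ℝ) < d := by exact_mod_cast hd
  have h1 : 128 * (d : ℝ) ^ 2 * (2 / (D : ℝ)) = (1 / 8) ^ (8 * d) := by
    rw [hD]
    push_cast
    rw [one_div, inv_pow]
    field_simp
    norm_num
  rw [h1, ← Real.rpow_natCast (1 / 8) (8 * d), ← Real.rpow_mul (by norm_num),
    ← Real.rpow_natCast (1 / 8) (2 * a)]
  congr 1
  push_cast
  field_simp
  ring

/-! ### The result -/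

theorem t_GPA : S_GPA := by
  classical
  intro d hd
  obtain ⟨D, hD⟩ : ∃ D : ℕ, D = 256 * d ^ 2 * 8 ^ (8 * d) := ⟨_, rfl⟩
  have hD8 : 256 ≤ D := by
    rw [hD]
    have h1 : 1 ≤ d ^ 2 := Nat.one_le_pow _ _ hd
    have h2 : 1 ≤ 8 ^ (8 * d) := Nat.one_le_pow _ _ (by norm_num)
    calc 256 = 256 * 1 * 1 := by norm_num
      _ ≤ 256 * d ^ 2 * 8 ^ (8 * d) := Nat.mul_le_mul (Nat.mul_le_mul le_rfl h1) h2
  have hD0 : (0 : ℝ) < D := by
    have : 0 < D := by omega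
    exact_mod_cast this
  have hD8' : (256 : ℝ) ≤ D := by exact_mod_cast hD8
  refine ⟨1 / (D : ℝ), 80 * D + 8, by positivity, ?_, by omega, ?_⟩
  · rw [div_le_div_iff₀ hD0 (by norm_num)]
    linarith
  intro ε hε
  obtain ⟨K0, hK1, hK2, hK3, hK4⟩ := exists_K0 d D (half_pos hε)
  have hpath : ∀ p : (Fin d → ℤ) × (Fin d → ℤ), ∃ E : Finset ((Fin d → ℤ) × Fin d),
      bx (40 * K0 * D + 2) p.1 → bx (40 * K0 * D + 2) p.2 → (E.card : ℤ) = l1 (p.1 - p.2) ∧
      (∀ e ∈ E, bx (40 * K0 * D + 2) e.1 ∧ bx (40 * K0 * D + 2) (e.1 + Pi.single e.2 1)) ∧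
      ∀ f : (Fin d → ℤ) → ℝ, |f p.1 - f p.2| ≤
        ∑ e ∈ E, |f (e.1 + Pi.single e.2 1) - f e.1| := by
    intro p
    by_cases h1 : bx (40 * K0 * D + 2) p.1 ∧ bx (40 * K0 * D + 2) p.2
    · obtain ⟨E, hE1, hE2, hE3⟩ := exists_path h1.2 (l1 (p.1 - p.2)).toNat p.1 h1.1
        (Int.toNat_of_nonneg (l1_nonneg _)).symm
      refine ⟨E, fun _ _ => ⟨?_, fun e he => ⟨(hE2 e he).1, (hE2 e he).2.1⟩, hE3⟩⟩
      rw [hE1]
      exact Int.toNat_of_nonneg (l1_nonneg _)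
    · exact ⟨∅, fun h2 h3 => absurd ⟨h2, h3⟩ h1⟩
  choose E hE using hpath
  obtain ⟨EE, hEE⟩ : ∃ EE : Finset ((Fin d → ℤ) × Fin d), ∀ e, e ∈ EE ↔
      bx (40 * K0 * D + 2) e.1 ∧ bx (40 * K0 * D + 2) (e.1 + Pi.single e.2 1) := by
    refine ⟨(Bx d (40 * K0 * D + 2) ×ˢ Finset.univ).filter
      fun e => bx (40 * K0 * D + 2) (e.1 + Pi.single e.2 1), fun e => ?_⟩
    rw [Finset.mem_filter, Finset.mem_product, mem_Bx]
    exact ⟨fun h => ⟨h.1.1, h.2⟩, fun h => ⟨⟨h.1, Finset.mem_univ _⟩, h.2⟩⟩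
  obtain ⟨δ, hδ0, hδ1, hδ2⟩ := exists_delta hd (D := 1 / (D : ℝ) / 2) (by positivity)
    (half_pos hε) EE.card
  have hδle : δ ≤ 1 := by
    refine hδ1.trans ?_
    rw [div_div, div_le_one (by positivity)]
    linarith
  have h2D : 2 / (D : ℝ) ≤ 1 := by
    rw [div_le_one hD0]
    linarith
  obtain ⟨I, hI⟩ : ∃ I : Finset (((Fin d → ℤ) × Fin d) ⊕
      (Σ _ : (Fin d → ℤ) × (Fin d → ℤ), Finset ((Fin d → ℤ) × Fin d))),
      I = EE.disjSum ((Bx d (40 * K0 * D + 2) ×ˢ Bx d (40 * K0 * D + 2)).sigma fun p =>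
        (E p).powerset.filter fun A => K0 ≤ (E p).card ∧ (E p).card ≤ 2 * A.card) := ⟨_, rfl⟩
  obtain ⟨φ, hφ1, hφ2⟩ : ∃ φ : (((Fin d → ℤ) × Fin d) ⊕
      (Σ _ : (Fin d → ℤ) × (Fin d → ℤ), Finset ((Fin d → ℤ) × Fin d))) →
      Finset ((Fin d → ℤ) × Fin d) × ℝ, (∀ e, φ (Sum.inl e) = ({e}, δ)) ∧
      ∀ x, φ (Sum.inr x) = (x.2, 2 / (D : ℝ)) :=
    ⟨Sum.elim (fun e => ({e}, δ)) (fun x => (x.2, 2 / (D : ℝ))), fun _ => rfl, fun _ => rfl⟩
  have hcast : ((40 * K0 * D : ℕ) : ℝ) * (1 / (D : ℝ)) = 40 * K0 := by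
    push_cast
    field_simp
  refine ⟨K0, 40 * K0 * D, δ, hK1, hK2, ?_, ?_, hδ0, hδ1, ?_, I.image φ, ?_, ?_, ?_⟩
  · rw [mul_one_div, le_div_iff₀ hD0]
    exact_mod_cast hK3
  · rw [hcast]
  · have h1 : 1 ≤ K0 := by omega
    nlinarith
  · -- the patterns are in the box
    intro q hq
    obtain ⟨x, hx, rfl⟩ := Finset.mem_image.1 hq
    rw [hI] at hx
    rcases x with e | ⟨p, A⟩
    · rw [hφ1]
      refine ⟨hδ0, hδle, fun e' he' => ?_⟩
      rw [Finset.mem_singleton.1 he']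
      exact (hEE e).1 (Finset.inl_mem_disjSum.1 hx)
    · rw [hφ2]
      refine ⟨by positivity, h2D, fun e' he' => ?_⟩
      have h1 := Finset.inr_mem_disjSum.1 hx
      rw [Finset.mem_sigma, Finset.mem_product, Finset.mem_filter, Finset.mem_powerset] at h1
      exact (hE p (mem_Bx.1 h1.1.1) (mem_Bx.1 h1.1.2)).2.1 e' (h1.2.1 he')
  · -- the weights
    refine (sum_image_le I φ (fun q => (128 * (d : ℝ) ^ 2 * q.2) ^
      ((q.1.card : ℝ) / (4 * d))) ?_).trans ?_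
    · intro x _
      refine Real.rpow_nonneg (mul_nonneg (by positivity) ?_) _
      rcases x with e | x
      · rw [hφ1]
        exact hδ0.le
      · rw [hφ2]
        positivity
    · rw [hI, Finset.sum_disjSum, Finset.sum_sigma]
      have hs1 : ∑ e ∈ EE, (128 * (d : ℝ) ^ 2 * (φ (Sum.inl e)).2) ^
          (((φ (Sum.inl e)).1.card : ℝ) / (4 * d)) ≤ ε / 2 := by
        have h1 : ∀ e ∈ EE, (128 * (d : ℝ) ^ 2 * (φ (Sum.inl e)).2) ^
            (((φ (Sum.inl e)).1.card : ℝ) / (4 * d)) =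
            (128 * (d : ℝ) ^ 2 * δ) ^ ((1 : ℝ) / (4 * d)) := by
          intro e _
          rw [hφ1, Finset.card_singleton, Nat.cast_one]
        rw [Finset.sum_congr rfl h1, Finset.sum_const, nsmul_eq_mul]
        exact hδ2
      have hs2 : ∀ p ∈ Bx d (40 * K0 * D + 2) ×ˢ Bx d (40 * K0 * D + 2),
          ∑ A ∈ (E p).powerset.filter fun A => K0 ≤ (E p).card ∧ (E p).card ≤ 2 * A.card,
            (128 * (d : ℝ) ^ 2 * (φ (Sum.inr ⟨p, A⟩)).2) ^
              (((φ (Sum.inr ⟨p, A⟩)).1.card : ℝ) / (4 * d)) ≤ (1 / 4) ^ K0 := by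
        intro p _
        by_cases hp : K0 ≤ (E p).card
        · calc ∑ A ∈ (E p).powerset.filter fun A => K0 ≤ (E p).card ∧ (E p).card ≤ 2 * A.card,
                (128 * (d : ℝ) ^ 2 * (φ (Sum.inr ⟨p, A⟩)).2) ^
                  (((φ (Sum.inr ⟨p, A⟩)).1.card : ℝ) / (4 * d))
              ≤ ∑ _A ∈ (E p).powerset.filter
                  fun A => K0 ≤ (E p).card ∧ (E p).card ≤ 2 * A.card,
                  ((1 : ℝ) / 8) ^ (E p).card := by
                refine Finset.sum_le_sum fun A hA => ?_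
                rw [hφ2, weight2 hd hD]
                exact pow_le_pow_of_le_one (by norm_num) (by norm_num)
                  (Finset.mem_filter.1 hA).2.2
            _ ≤ (2 : ℝ) ^ (E p).card * (1 / 8) ^ (E p).card := by
                rw [Finset.sum_const, nsmul_eq_mul]
                refine mul_le_mul_of_nonneg_right ?_ (by positivity)
                have h1 := Finset.card_filter_le (E p).powerset
                  (fun A => K0 ≤ (E p).card ∧ (E p).card ≤ 2 * A.card)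
                rw [Finset.card_powerset] at h1
                exact_mod_cast h1
            _ = (1 / 4) ^ (E p).card := by
                rw [← mul_pow]
                norm_num
            _ ≤ (1 / 4) ^ K0 := pow_le_pow_of_le_one (by norm_num) (by norm_num) hp
        · rw [Finset.filter_false_of_mem (fun A _ h => hp h.1), Finset.sum_empty]
          positivity
      have hs3 : ∑ p ∈ Bx d (40 * K0 * D + 2) ×ˢ Bx d (40 * K0 * D + 2),
          ∑ A ∈ (E p).powerset.filter fun A => K0 ≤ (E p).card ∧ (E p).card ≤ 2 * A.card,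
            (128 * (d : ℝ) ^ 2 * (φ (Sum.inr ⟨p, A⟩)).2) ^
              (((φ (Sum.inr ⟨p, A⟩)).1.card : ℝ) / (4 * d)) ≤ ε / 2 := by
        refine (Finset.sum_le_sum hs2).trans ?_
        rw [Finset.sum_const, nsmul_eq_mul, Finset.card_product, card_Bx, ← pow_add, ← two_mul]
        refine le_trans (le_of_eq ?_) hK4
        push_cast
        rfl
      calc _ ≤ ε / 2 + ε / 2 := add_le_add hs1 hs3
        _ = ε := add_halves ε
  · -- bad boxes have steep edges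
    intro n K τ k ψ hψ hGd
    obtain ⟨f, hf⟩ : ∃ f : (Fin d → ℤ) → ℝ, ∀ z, f z = ψ (ctr τ K k + zt n z) :=
      ⟨_, fun _ => rfl⟩
    have hf1 : ∀ (z : Fin d → ℤ) (i : Fin d), |f (z + Pi.single i 1) - f z| ≤ 1 := by
      intro z i
      rw [hf, hf, zt_add, ← add_assoc]
      exact hψ _ _
    have hex : ∃ z z' : Fin d → ℤ, bx (40 * K0 * D + 2) z ∧ bx (40 * K0 * D + 2) z' ∧
        (¬ |f z - f z'| ≤ (1 - δ) * (l1 (z - z') : ℝ) ∨
          ((K0 : ℤ) ≤ l1 (z - z') ∧ ¬ |f z - f z'| ≤ (1 - 1 / (D : ℝ)) * (l1 (z - z') : ℝ))) := by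
      by_contra hcon
      apply hGd
      intro z z' hz hz' _ _
      rw [← hf, ← hf]
      refine ⟨?_, fun h => ?_⟩
      · by_contra h1
        exact hcon ⟨z, z', hz, hz', Or.inl h1⟩
      · by_contra h1
        exact hcon ⟨z, z', hz, hz', Or.inr ⟨h, h1⟩⟩
    obtain ⟨z, z', hz, hz', h⟩ := hex
    obtain ⟨hE1, hE2, hE3⟩ := hE (z, z') hz hz'
    have hl : (l1 (z - z') : ℝ) = ((E (z, z')).card : ℝ) := by
      have h1 : l1 (z - z') = ((E (z, z')).card : ℤ) := hE1.symm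
      rw [h1]
      exact Int.cast_natCast _
    rw [hl] at h
    rcases h with h | ⟨h, h'⟩
    · have h1 := lt_of_lt_of_le (not_le.1 h) (hE3 f)
      obtain ⟨e, he, hge⟩ := one_steep h1
      refine ⟨φ (Sum.inl e), Finset.mem_image_of_mem φ ?_, ?_⟩
      · rw [hI]
        exact Finset.inl_mem_disjSum.2 ((hEE e).2 (hE2 e he))
      · rw [hφ1]
        intro e' he'
        rw [Finset.mem_singleton.1 he', ← hf, ← hf]
        exact hge
    · have h1 := lt_of_lt_of_le (not_le.1 h') (hE3 f)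
      obtain ⟨A, hA1, hA2, hA3⟩ := half_steep (fun e _ => hf1 e.1 e.2)
        (by positivity : (0 : ℝ) < 1 / D) h1
      refine ⟨φ (Sum.inr ⟨(z, z'), A⟩), Finset.mem_image_of_mem φ ?_, ?_⟩
      · rw [hI]
        refine Finset.inr_mem_disjSum.2 ?_
        rw [Finset.mem_sigma, Finset.mem_product, Finset.mem_filter, Finset.mem_powerset]
        refine ⟨⟨mem_Bx.2 hz, mem_Bx.2 hz'⟩, hA1, ?_, hA2⟩
        have h2 : (K0 : ℤ) ≤ ((E (z, z')).card : ℤ) := by
          rw [hE1]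
          exact h
        exact_mod_cast h2
      · rw [hφ2]
        intro e' he'
        rw [← hf, ← hf]
        have h2 := hA3 e' he'
        rw [mul_one_div] at h2
        exact h2

end Pool.Agent.H772.LF
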